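import Pool.Agent.Helper27.OT.Defs

/-!
# MP_2857a5_co, module TD: cutting a rooted tree into small pieces with connectors
-/

set_option autoImplicit false

open Finset
open scoped Classical

namespace OT

noncomputable section

namespace TD

variable {n : ℕ} (T : PTree n)

/-- `z` is reached from `w` by taking parents, all the vertices met (ends included) being
outside `S`. -/
inductive Desc (S : Finset (Fin n)) (z : Fin n) : Fin n → Prop
  | base : z ∉ S → Desc S z z
  | step (w : Fin n) : w ∉ S → (w : ℕ) ≠ 0 → Desc S z (T.par w) → Desc S z w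

variable {T} {S S' : Finset (Fin n)} {z w v : Fin n}

lemma Desc.left (h : Desc T S z w) : z ∉ S := by
  induction h with
  | base h => exact h
  | step w _ _ _ ih => exact ih

lemma Desc.right (h : Desc T S z w) : w ∉ S := by
  cases h with
  | base h => exact h
  | step _ h _ _ => exact h

lemma Desc.le (h : Desc T S z w) : z ≤ w := by
  induction h with
  | base _ => exact le_rfl
  | step w _ h0 _ ih => exact ih.trans (T.lt w h0).le

lemma Desc.mono (h : Desc T S z w) (hS : S' ⊆ S) : Desc T S' z w := by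
  induction h with
  | base h => exact Desc.base fun h' => h (hS h')
  | step w h h0 _ ih => exact Desc.step w (fun h' => h (hS h')) h0 ih

lemma Desc.trans (h1 : Desc T S z w) {x : Fin n} (h2 : Desc T S w x) : Desc T S z x := by
  induction h2 with
  | base _ => exact h1
  | step x h h0 _ ih => exact Desc.step x h h0 ih

lemma Desc.child (hz : z ∉ S) (hw : w ∉ S) (h0 : (w : ℕ) ≠ 0) (hp : T.par w = z) :
    Desc T S z w := by
  refine Desc.step w hw h0 ?_
  rw [hp]
  exact Desc.base hz

/-- top-down decomposition -/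
lemma Desc.cases_top (h : Desc T S z w) :
    w = z ∨ ∃ c, c ∉ S ∧ (c : ℕ) ≠ 0 ∧ T.par c = z ∧ Desc T S c w := by
  induction h with
  | base _ => exact Or.inl rfl
  | step w h h0 _ ih =>
    right
    rcases ih with ih | ⟨c, hc, hc0, hp, hd⟩
    · exact ⟨w, h, h0, ih, Desc.base h⟩
    · exact ⟨c, hc, hc0, hp, Desc.step w h h0 hd⟩

lemma Desc.comparable {z' : Fin n} (h : Desc T S z w) (h' : Desc T S z' w) :
    Desc T S z z' ∨ Desc T S z' z := by
  induction h with
  | base _ => exact Or.inr h'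
  | step w hw h0 hd ih =>
    cases h' with
    | base _ => exact Or.inl (Desc.step _ hw h0 hd)
    | step _ _ _ hd' => exact ih hd'

/-- a vertex between `z` and `w` is outside `S` -/
lemma Desc.between (h : Desc T S z w) (h' : Desc T ∅ v w) (hv : z ≤ v) : v ∉ S := by
  induction h with
  | base h =>
    have := le_antisymm hv h'.le
    rwa [← this]
  | step w hw _ _ ih =>
    cases h' with
    | base _ => exact hw
    | step _ _ _ hd' => exact ih hd'

variable (T S) in
/-- the set of descendants -/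
def dc (z : Fin n) : Finset (Fin n) := univ.filter fun w => Desc T S z w

lemma mem_dc : w ∈ dc T S z ↔ Desc T S z w := by simp [dc]

variable (T S) in
/-- the children outside `S` -/
def cs (z : Fin n) : Finset (Fin n) := (T.ch z).filter fun c => c ∉ S

lemma mem_cs {c : Fin n} : c ∈ cs T S z ↔ (c : ℕ) ≠ 0 ∧ T.par c = z ∧ c ∉ S := by
  simp [cs, PTree.ch, and_assoc]

lemma cs_card {Δ : ℕ} (h : T.Deg Δ) (z : Fin n) : (cs T S z).card ≤ Δ :=
  (card_filter_le _ _).trans (h z)

lemma dc_eq (hz : z ∉ S) : dc T S z = insert z ((cs T S z).biUnion (dc T S)) := by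
  ext w
  simp only [mem_dc, mem_insert, mem_biUnion, mem_cs]
  constructor
  · intro h
    rcases h.cases_top with h | ⟨c, hc, hc0, hp, hd⟩
    · exact Or.inl h
    · exact Or.inr ⟨c, ⟨hc0, hp, hc⟩, hd⟩
  · rintro (rfl | ⟨c, ⟨hc0, hp, hc⟩, hd⟩)
    · exact Desc.base hz
    · exact (Desc.child hz hc hc0 hp).trans hd

lemma sib_disj {c c' : Fin n} (hc : c ∈ cs T S z) (hc' : c' ∈ cs T S z) (hne : c ≠ c') :
    Disjoint (dc T S c) (dc T S c') := by
  rw [Finset.disjoint_left]
  intro w hw hw'
  rw [mem_dc] at hw hw'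
  rw [mem_cs] at hc hc'
  have key : ∀ a b : Fin n, (a : ℕ) ≠ 0 → T.par a = z → (b : ℕ) ≠ 0 → T.par b = z → a ≠ b →
      ¬ Desc T S a b := by
    intro a b ha0 ha hb0 hb hab h
    cases h with
    | base _ => exact hab rfl
    | step _ _ _ hd =>
      have h1 := hd.le
      rw [hb, ← ha] at h1
      exact absurd (T.lt a ha0) (not_lt.2 h1)
  rcases hw.comparable hw' with h | h
  · exact key c c' hc.1 hc.2.1 hc'.1 hc'.2.1 hne h
  · exact key c' c hc'.1 hc'.2.1 hc.1 hc.2.1 hne.symm h

lemma self_notMem (T : PTree n) (S : Finset (Fin n)) (z : Fin n) :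
    z ∉ (cs T S z).biUnion (dc T S) := by
  simp only [mem_biUnion, mem_cs, mem_dc, not_exists, not_and]
  intro c hc hd
  have h1 := hd.le
  have h2 := T.lt c hc.1
  rw [hc.2.1] at h2
  exact absurd h2 (not_lt.2 h1)

lemma dc_card (hz : z ∉ S) : (dc T S z).card = 1 + ∑ c ∈ cs T S z, (dc T S c).card := by
  rw [dc_eq hz, card_insert_of_notMem (self_notMem T S z), card_biUnion]
  · ring
  · intro c hc c' hc' hne
    exact sib_disj hc hc' hne

lemma dc_sub {c : Fin n} (hz : z ∉ S) (hc : c ∈ cs T S z) : dc T S c ⊆ dc T S z := by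
  intro w hw
  rw [mem_dc] at hw ⊢
  rw [mem_cs] at hc
  exact (Desc.child hz hc.2.2 hc.1 hc.2.1).trans hw

/-! ### The relation with `rt` -/

lemma desc_rt {U : Finset (Fin n)} (h0 : ∀ i : Fin n, (i : ℕ) = 0 → i ∈ U) :
    ∀ w : Fin n, w ∉ U → Desc T U (T.rt U w) w := by
  intro w
  induction w using WellFoundedLT.induction with
  | ind w ih =>
    intro hw
    have hw0 : (w : ℕ) ≠ 0 := fun h => hw (h0 w h)
    rw [PTree.rt]
    split_ifs with h
    · exact Desc.base hw
    · push Not at h
      exact Desc.step w hw hw0 (ih _ (T.lt w hw0) h.2.2)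

/-! ### Tops and nice sets -/

variable (T S) in
/-- a top relative to `S` and `U` -/
def Tp (U : Finset (Fin n)) (z : Fin n) : Prop := z ∉ S ∧ z ∉ U ∧ T.par z ∈ U

variable (T S) in
/-- nice sets -/
structure Nice (R U : Finset (Fin n)) : Prop where
  sub : R ⊆ U
  p1 : ∀ z, Tp T S U z → T.par z ∉ R
  p2 : ∀ z, Tp T S U z → T.par (T.par z) ∈ U
  d1 : ∀ z z', Tp T S U z → Tp T S U z' → T.par z = T.par z' → z = z'
  d2 : ∀ z z', Tp T S U z → Tp T S U z' → T.par (T.par z) = T.par (T.par z') → z = z'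
  d3 : ∀ z z', Tp T S U z → Tp T S U z' → T.par z ≠ T.par (T.par z')

/-- gluing nice sets -/
lemma Nice.glue (B : Finset (Fin n)) (Uf : Fin n → Finset (Fin n))
    (hn : ∀ b ∈ B, Nice T S {b} (Uf b))
    (hd : ∀ b ∈ B, ∀ b' ∈ B, b ≠ b' → Disjoint (Uf b) (Uf b')) :
    Nice T S B (B.biUnion Uf) := by
  have key : ∀ z, Tp T S (B.biUnion Uf) z → ∃ b ∈ B, Tp T S (Uf b) z := by
    intro z hz
    obtain ⟨h1, h2, h3⟩ := hz
    rw [mem_biUnion] at h3
    obtain ⟨b, hb, h3⟩ := h3
    refine ⟨b, hb, h1, fun h => h2 (mem_biUnion.2 ⟨b, hb, h⟩), h3⟩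
  have mem2 : ∀ b ∈ B, ∀ b' ∈ B, ∀ x, x ∈ Uf b → x ∈ Uf b' → b = b' := by
    intro b hb b' hb' x hx hx'
    by_contra hne
    exact (Finset.disjoint_left.1 (hd b hb b' hb' hne)) hx hx'
  refine ⟨?_, ?_, ?_, ?_, ?_, ?_⟩
  · intro b hb
    exact mem_biUnion.2 ⟨b, hb, (hn b hb).sub (mem_singleton_self b)⟩
  · intro z hz hp
    obtain ⟨b, hb, ht⟩ := key z hz
    have h1 := (hn b hb).p1 z ht
    have h2 : T.par z ∈ Uf (T.par z) := (hn _ hp).sub (mem_singleton_self _)
    have h3 := mem2 b hb _ hp _ ht.2.2 h2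
    exact h1 (by rw [← h3]; exact mem_singleton_self _)
  · intro z hz
    obtain ⟨b, hb, ht⟩ := key z hz
    exact mem_biUnion.2 ⟨b, hb, (hn b hb).p2 z ht⟩
  · intro z z' hz hz' he
    obtain ⟨b, hb, ht⟩ := key z hz
    obtain ⟨b', hb', ht'⟩ := key z' hz'
    have h3 : b = b' := mem2 b hb b' hb' _ ht.2.2 (by rw [he]; exact ht'.2.2)
    subst h3
    exact (hn b hb).d1 z z' ht ht' he
  · intro z z' hz hz' he
    obtain ⟨b, hb, ht⟩ := key z hz
    obtain ⟨b', hb', ht'⟩ := key z' hz'
    have h3 : b = b' := mem2 b hb b' hb' _ ((hn b hb).p2 z ht)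
      (by rw [he]; exact (hn b' hb').p2 z' ht')
    subst h3
    exact (hn b hb).d2 z z' ht ht' he
  · intro z z' hz hz' he
    obtain ⟨b, hb, ht⟩ := key z hz
    obtain ⟨b', hb', ht'⟩ := key z' hz'
    have h3 : b = b' := mem2 b hb b' hb' _ ht.2.2 (by rw [he]; exact (hn b' hb').p2 z' ht')
    subst h3
    exact (hn b hb).d3 z z' ht ht' he

/-- one step -/
lemma Nice.step {B W : Finset (Fin n)} (hW : Nice T S B W) {b y z0 : Fin n}
    (h0 : ∀ i : Fin n, (i : ℕ) = 0 → i ∈ S)
    (hy : T.par y = b) (hz0 : T.par z0 = y) (hyb : y ≠ b)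
    (hbW : b ∉ W) (hyW : y ∉ W)
    (hcb : ∀ c ∈ cs T S b, c ≠ y → c ∈ B) (hcy : ∀ c ∈ cs T S y, c ≠ z0 → c ∈ B) :
    Nice T S {b} (insert b (insert y W)) := by
  have key : ∀ z, Tp T S (insert b (insert y W)) z → z = z0 ∨ Tp T S W z := by
    intro z hz
    obtain ⟨h1, h2, h3⟩ := hz
    have hne0 : (z : ℕ) ≠ 0 := fun h => h1 (h0 z h)
    simp only [mem_insert, not_or] at h2
    simp only [mem_insert] at h3
    rcases h3 with h3 | h3 | h3
    · exact absurd (hW.sub (hcb z (mem_cs.2 ⟨hne0, h3, h1⟩) h2.2.1)) h2.2.2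
    · by_contra hcon
      push Not at hcon
      exact absurd (hW.sub (hcy z (mem_cs.2 ⟨hne0, h3, h1⟩) hcon.1)) h2.2.2
    · exact Or.inr ⟨h1, h2.2.2, h3⟩
  have m1 : ∀ z, Tp T S W z → T.par z ≠ b ∧ T.par z ≠ y := by
    intro z hz
    exact ⟨fun h => hbW (h ▸ hz.2.2), fun h => hyW (h ▸ hz.2.2)⟩
  have m2 : ∀ z, Tp T S W z → T.par (T.par z) ≠ b ∧ T.par (T.par z) ≠ y := by
    intro z hz
    have := hW.p2 z hz
    exact ⟨fun h => hbW (h ▸ this), fun h => hyW (h ▸ this)⟩
  refine ⟨?_, ?_, ?_, ?_, ?_, ?_⟩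
  · simp
  · intro z hz
    rw [mem_singleton]
    rcases key z hz with rfl | hz
    · rw [hz0]; exact hyb
    · exact (m1 z hz).1
  · intro z hz
    rcases key z hz with rfl | hz
    · rw [hz0, hy]; exact mem_insert_self _ _
    · exact mem_insert_of_mem (mem_insert_of_mem (hW.p2 z hz))
  · intro z z' hz hz' he
    rcases key z hz with rfl | hz <;> rcases key z' hz' with rfl | hz'
    · rfl
    · rw [hz0] at he
      exact absurd he.symm (m1 z' hz').2
    · rw [hz0] at he
      exact absurd he (m1 z hz).2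
    · exact hW.d1 z z' hz hz' he
  · intro z z' hz hz' he
    rcases key z hz with rfl | hz <;> rcases key z' hz' with rfl | hz'
    · rfl
    · rw [hz0, hy] at he
      exact absurd he.symm (m2 z' hz').1
    · rw [hz0, hy] at he
      exact absurd he (m2 z hz).1
    · exact hW.d2 z z' hz hz' he
  · intro z z' hz hz' he
    rcases key z hz with rfl | hz <;> rcases key z' hz' with rfl | hz'
    · rw [hz0, hy] at he
      exact hyb he
    · rw [hz0] at he
      exact (m2 z' hz').2 he.symm
    · rw [hz0, hy] at he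
      exact (m1 z hz).1 he
    · exact hW.d3 z z' hz hz' he

/-- the base case: everything -/
lemma Nice.all (h0 : ∀ i : Fin n, (i : ℕ) = 0 → i ∈ S) {b : Fin n} (hb : b ∉ S) :
    Nice T S {b} (dc T S b) := by
  have key : ∀ z, ¬ Tp T S (dc T S b) z := by
    rintro z ⟨h1, h2, h3⟩
    rw [mem_dc] at h2 h3
    exact h2 (Desc.step z h1 (fun h => h1 (h0 z h)) h3)
  refine ⟨?_, fun z h => absurd h (key z), fun z h => absurd h (key z),
    fun z _ h => absurd h (key z), fun z _ h => absurd h (key z), fun z _ h => absurd h (key z)⟩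
  rw [singleton_subset_iff, mem_dc]
  exact Desc.base hb

/-- Lemma H. -/
lemma lemmaH (Δ : ℕ) (hΔ : 1 ≤ Δ) (r : ℕ) : ∃ C : ℝ, 0 ≤ C ∧ ∀ (n : ℕ) (T : PTree n)
    (S : Finset (Fin n)), T.Deg Δ → (∀ i : Fin n, (i : ℕ) = 0 → i ∈ S) → ∀ b, b ∉ S →
    ∃ U : Finset (Fin n), Nice T S {b} U ∧ U ⊆ dc T S b ∧
      (U.card : ℝ) ≤ C + (1 - 1 / (Δ : ℝ) ^ 2) ^ r * ((dc T S b).card : ℝ) := by
  have hΔ' : (1 : ℝ) ≤ Δ := by exact_mod_cast hΔ
  have hΔ2 : (1 : ℝ) ≤ (Δ : ℝ) ^ 2 := by nlinarith
  set d : ℝ := 1 - 1 / (Δ : ℝ) ^ 2 with hd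
  have hd0 : 0 ≤ d := by
    rw [hd, sub_nonneg, div_le_one (by positivity)]; exact hΔ2
  have hd1 : d ≤ 1 := by
    rw [hd]
    have : 0 ≤ 1 / (Δ : ℝ) ^ 2 := by positivity
    linarith
  induction r with
  | zero =>
    refine ⟨0, le_rfl, ?_⟩
    intro n T S _ h0 b hb
    exact ⟨dc T S b, Nice.all h0 hb, subset_rfl, by simp⟩
  | succ r ih =>
    obtain ⟨C, hC, ih⟩ := ih
    refine ⟨4 + Δ + 2 * Δ * C, by positivity, ?_⟩
    intro n T S hT h0 b hb
    have hdr0 : 0 ≤ d ^ r := by positivity
    have hdr1 : d ^ r ≤ 1 := pow_le_one₀ hd0 hd1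
    by_cases hg : ∃ y ∈ cs T S b, (cs T S y).Nonempty
    · -- the pairs (y, z)
      set P : Finset (Fin n × Fin n) := univ.filter fun p => p.1 ∈ cs T S b ∧ p.2 ∈ cs T S p.1
        with hP
      have hPne : P.Nonempty := by
        obtain ⟨y, hy, z, hz⟩ := hg
        exact ⟨(y, z), by simp [hP, hy, hz]⟩
      obtain ⟨⟨y, z0⟩, hp, hmax⟩ := P.exists_max_image (fun p => (dc T S p.2).card) hPne
      simp only [hP, mem_filter, mem_univ, true_and] at hp
      obtain ⟨hy, hz0⟩ := hp
      have hmax' : ∀ y' ∈ cs T S b, ∀ z' ∈ cs T S y', (dc T S z').card ≤ (dc T S z0).card := by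
        intro y' hy' z' hz'
        exact hmax (y', z') (by simp [hP, hy', hz'])
      have hyS : y ∉ S := (mem_cs.1 hy).2.2
      choose! Uf hUf1 hUf2 hUf3 using ih n T S hT h0
      set B1 := (cs T S b).erase y with hB1
      set B2 := (cs T S y).erase z0 with hB2
      have hB1S : ∀ c ∈ B1, c ∉ S := fun c hc => (mem_cs.1 (mem_of_mem_erase hc)).2.2
      have hB2S : ∀ c ∈ B2, c ∉ S := fun c hc => (mem_cs.1 (mem_of_mem_erase hc)).2.2
      have hB2y : ∀ c ∈ B2, dc T S c ⊆ dc T S y := fun c hc => dc_sub hyS (mem_of_mem_erase hc)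
      have hdisj : ∀ c ∈ B1 ∪ B2, ∀ c' ∈ B1 ∪ B2, c ≠ c' → Disjoint (dc T S c) (dc T S c') := by
        intro c hc c' hc' hne
        rw [mem_union] at hc hc'
        rcases hc with hc | hc <;> rcases hc' with hc' | hc'
        · exact sib_disj (mem_of_mem_erase hc) (mem_of_mem_erase hc') hne
        · exact (sib_disj (mem_of_mem_erase hc) hy (ne_of_mem_erase hc)).mono_right (hB2y c' hc')
        · exact (sib_disj hy (mem_of_mem_erase hc') (ne_of_mem_erase hc').symm).mono_left
            (hB2y c hc)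
        · exact sib_disj (mem_of_mem_erase hc) (mem_of_mem_erase hc') hne
      have hBS : ∀ c ∈ B1 ∪ B2, c ∉ S := by
        intro c hc
        rcases mem_union.1 hc with hc | hc
        · exact hB1S c hc
        · exact hB2S c hc
      have hglue : Nice T S (B1 ∪ B2) ((B1 ∪ B2).biUnion Uf) := by
        refine Nice.glue _ _ (fun c hc => hUf1 c (hBS c hc)) ?_
        intro c hc c' hc' hne
        exact (hdisj c hc c' hc' hne).mono (hUf2 c (hBS c hc)) (hUf2 c' (hBS c' hc'))
      have hsub2 : ∀ c ∈ B1 ∪ B2, dc T S c ⊆ dc T S b := by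
        intro c hc
        rcases mem_union.1 hc with hc | hc
        · exact dc_sub hb (mem_of_mem_erase hc)
        · exact (hB2y c hc).trans (dc_sub hb hy)
      have hby : b < y := by
        have := T.lt y (mem_cs.1 hy).1
        rwa [(mem_cs.1 hy).2.1] at this
      have hgt : ∀ c ∈ B1 ∪ B2, b < c := by
        intro c hc
        rcases mem_union.1 hc with hc | hc
        · have h := mem_cs.1 (mem_of_mem_erase hc)
          have := T.lt c h.1
          rwa [h.2.1] at this
        · have h := mem_cs.1 (mem_of_mem_erase hc)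
          have := T.lt c h.1
          rw [h.2.1] at this
          exact hby.trans this
      have hbW : b ∉ (B1 ∪ B2).biUnion Uf := by
        rw [mem_biUnion]
        rintro ⟨c, hc, hb'⟩
        have h1 := hUf2 c (hBS c hc) hb'
        rw [mem_dc] at h1
        exact absurd (hgt c hc) (not_lt.2 h1.le)
      have hyW : y ∉ (B1 ∪ B2).biUnion Uf := by
        rw [mem_biUnion]
        rintro ⟨c, hc, hy'⟩
        have h1 := hUf2 c (hBS c hc) hy'
        rcases mem_union.1 hc with hc | hc
        · have h2 := sib_disj (mem_of_mem_erase hc) hy (ne_of_mem_erase hc)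
          exact (Finset.disjoint_left.1 h2) h1 (mem_dc.2 (Desc.base hyS))
        · rw [mem_dc] at h1
          have h := mem_cs.1 (mem_of_mem_erase hc)
          have h3 := T.lt c h.1
          rw [h.2.1] at h3
          exact absurd h3 (not_lt.2 h1.le)
      refine ⟨insert b (insert y ((B1 ∪ B2).biUnion Uf)), ?_, ?_, ?_⟩
      · refine hglue.step h0 (mem_cs.1 hy).2.1 (mem_cs.1 hz0).2.1 hby.ne' hbW hyW ?_ ?_
        · intro c hc hne
          exact mem_union_left _ (mem_erase.2 ⟨hne, hc⟩)
        · intro c hc hne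
          exact mem_union_right _ (mem_erase.2 ⟨hne, hc⟩)
      · intro w hw
        rw [mem_insert, mem_insert, mem_biUnion] at hw
        rcases hw with rfl | rfl | ⟨c, hc, hw⟩
        · exact mem_dc.2 (Desc.base hb)
        · exact dc_sub hb hy (mem_dc.2 (Desc.base hyS))
        · exact hsub2 c hc (hUf2 c (hBS c hc) hw)
      · -- the cardinality
        have hc1 : ((insert b (insert y ((B1 ∪ B2).biUnion Uf))).card : ℝ) ≤
            2 + ∑ c ∈ B1 ∪ B2, ((Uf c).card : ℝ) := by
          have h1 := card_insert_le b (insert y ((B1 ∪ B2).biUnion Uf))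
          have h2 := card_insert_le y ((B1 ∪ B2).biUnion Uf)
          have h3 := card_biUnion_le (s := B1 ∪ B2) (t := Uf)
          have h4 : (insert b (insert y ((B1 ∪ B2).biUnion Uf))).card ≤
              2 + ∑ c ∈ B1 ∪ B2, (Uf c).card := by omega
          exact_mod_cast h4
        have hc2 : ∑ c ∈ B1 ∪ B2, ((Uf c).card : ℝ) ≤
            ∑ c ∈ B1 ∪ B2, (C + d ^ r * ((dc T S c).card : ℝ)) :=
          sum_le_sum fun c hc => hUf3 c (hBS c hc)
        have hc3 : ∑ c ∈ B1 ∪ B2, (C + d ^ r * ((dc T S c).card : ℝ)) ≤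
            ∑ c ∈ B1, (C + d ^ r * ((dc T S c).card : ℝ)) +
              ∑ c ∈ B2, (C + d ^ r * ((dc T S c).card : ℝ)) := by
          rw [← sum_union_inter]
          refine le_add_of_nonneg_right (sum_nonneg fun c _ => by positivity)
        have hcard1 : B1.card ≤ Δ := (card_erase_le).trans (cs_card hT b)
        have hcard2 : B2.card ≤ Δ := (card_erase_le).trans (cs_card hT y)
        have hs1 : (dc T S b).card = 1 + (dc T S y).card + ∑ c ∈ B1, (dc T S c).card := by
          rw [dc_card hb, ← Finset.add_sum_erase _ _ hy]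
          ring
        have hs2 : (dc T S y).card = 1 + (dc T S z0).card + ∑ c ∈ B2, (dc T S c).card := by
          rw [dc_card hyS, ← Finset.add_sum_erase _ _ hz0]
          ring
        have hs3 : (dc T S b).card ≤ 1 + Δ + Δ ^ 2 * (dc T S z0).card := by
          rw [dc_card hb]
          have h1 : ∀ c ∈ cs T S b, (dc T S c).card ≤ 1 + Δ * (dc T S z0).card := by
            intro c hc
            rw [dc_card (mem_cs.1 hc).2.2]
            have h2 : ∑ c' ∈ cs T S c, (dc T S c').card ≤ (cs T S c).card • (dc T S z0).card :=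
              sum_le_card_nsmul _ _ _ fun c' hc' => hmax' c hc c' hc'
            rw [smul_eq_mul] at h2
            have h3 := Nat.mul_le_mul_right (dc T S z0).card (cs_card (S := S) hT c)
            omega
          have h2 := sum_le_card_nsmul _ _ _ h1
          rw [smul_eq_mul] at h2
          have h3 := Nat.mul_le_mul_right (1 + Δ * (dc T S z0).card) (cs_card (S := S) hT b)
          have h4 : Δ * (1 + Δ * (dc T S z0).card) = Δ + Δ ^ 2 * (dc T S z0).card := by ring
          omega
        have hs1' : ((dc T S b).card : ℝ) =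
            1 + (dc T S y).card + ∑ c ∈ B1, ((dc T S c).card : ℝ) := by
          exact_mod_cast hs1
        have hs2' : ((dc T S y).card : ℝ) =
            1 + (dc T S z0).card + ∑ c ∈ B2, ((dc T S c).card : ℝ) := by
          exact_mod_cast hs2
        have hs3' : ((dc T S b).card : ℝ) ≤ 1 + Δ + (Δ : ℝ) ^ 2 * ((dc T S z0).card : ℝ) := by
          exact_mod_cast hs3
        have hcard1' : (B1.card : ℝ) ≤ Δ := by exact_mod_cast hcard1
        have hcard2' : (B2.card : ℝ) ≤ Δ := by exact_mod_cast hcard2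
        have e1 : ∑ c ∈ B1, (C + d ^ r * ((dc T S c).card : ℝ)) =
            B1.card * C + d ^ r * ∑ c ∈ B1, ((dc T S c).card : ℝ) := by
          rw [sum_add_distrib, ← mul_sum, sum_const, nsmul_eq_mul]
        have e2 : ∑ c ∈ B2, (C + d ^ r * ((dc T S c).card : ℝ)) =
            B2.card * C + d ^ r * ∑ c ∈ B2, ((dc T S c).card : ℝ) := by
          rw [sum_add_distrib, ← mul_sum, sum_const, nsmul_eq_mul]
        set N : ℝ := ((dc T S b).card : ℝ) with hN
        set Z : ℝ := ((dc T S z0).card : ℝ) with hZ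
        have hsum : ∑ c ∈ B1, ((dc T S c).card : ℝ) + ∑ c ∈ B2, ((dc T S c).card : ℝ) =
            N - 2 - Z := by linarith
        have hZ' : N / (Δ : ℝ) ^ 2 - 2 ≤ Z := by
          have hp : (0 : ℝ) < (Δ : ℝ) ^ 2 := by positivity
          have h5 : N / (Δ : ℝ) ^ 2 ≤ Z + 2 := by
            rw [div_le_iff₀ hp]
            nlinarith
          linarith
        have hfin : N - 2 - Z ≤ d * N := by
          rw [hd]
          have : (1 - 1 / (Δ : ℝ) ^ 2) * N = N - N / (Δ : ℝ) ^ 2 := by ring
          rw [this]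
          linarith
        calc ((insert b (insert y ((B1 ∪ B2).biUnion Uf))).card : ℝ)
            ≤ 2 + (B1.card * C + B2.card * C + d ^ r * (N - 2 - Z)) := by
              rw [← hsum, mul_add]
              linarith
          _ ≤ 2 + (Δ * C + Δ * C + d ^ r * (d * N)) := by
              have h6 : (B1.card : ℝ) * C ≤ Δ * C := mul_le_mul_of_nonneg_right hcard1' hC
              have h7 : (B2.card : ℝ) * C ≤ Δ * C := mul_le_mul_of_nonneg_right hcard2' hC
              have h8 : d ^ r * (N - 2 - Z) ≤ d ^ r * (d * N) :=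
                mul_le_mul_of_nonneg_left hfin hdr0
              linarith
          _ ≤ 4 + Δ + 2 * Δ * C + d ^ (r + 1) * N := by
              rw [pow_succ]
              have : d ^ r * (d * N) = d ^ r * d * N := by ring
              rw [this]
              linarith
    · -- no grandchildren
      push Not at hg
      refine ⟨dc T S b, Nice.all h0 hb, subset_rfl, ?_⟩
      have h1 : (dc T S b).card ≤ 1 + Δ := by
        rw [dc_card hb]
        have h2 : ∀ c ∈ cs T S b, (dc T S c).card ≤ 1 := by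
          intro c hc
          have h3 := hg c hc
          rw [dc_card (mem_cs.1 hc).2.2]
          have h4 : cs T S c = ∅ := by simpa using h3
          rw [h4]
          simp
        have h3 := sum_le_card_nsmul _ _ _ h2
        rw [smul_eq_mul, mul_one] at h3
        have h4 := cs_card (S := S) hT b
        omega
      have h2 : ((dc T S b).card : ℝ) ≤ 1 + Δ := by exact_mod_cast h1
      have h3 : 0 ≤ 2 * (Δ : ℝ) * C := by positivity
      have h4 : 0 ≤ d ^ (r + 1) * ((dc T S b).card : ℝ) := by positivity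
      linarith

/-- The first cut. -/
lemma first_cut (T : PTree n) (k : ℕ) (m : ℕ) (hm : m ≤ n) :
    ∃ S : Finset (Fin n), (∀ v ∈ S, m ≤ (v : ℕ)) ∧
      (∀ v : Fin n, m ≤ (v : ℕ) → v ∉ S → (dc T S v).card ≤ k) ∧
      k * S.card ≤ (univ.filter fun w => ∃ v ∈ S, Desc T ∅ v w).card := by
  induction hm using Nat.decreasingInduction with
  | self =>
    refine ⟨∅, by simp, ?_, by simp⟩
    intro v hv
    exact absurd v.2 (not_lt.2 hv)
  | of_succ m hm ih =>
    obtain ⟨S, h1, h2, h3⟩ := ih
    set v0 : Fin n := ⟨m, hm⟩ with hv0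
    have hv0S : v0 ∉ S := by
      intro h
      have := h1 v0 h
      simp [hv0] at this
    by_cases hD : (dc T S v0).card ≤ k
    · refine ⟨S, fun v hv => (Nat.le_succ m).trans (h1 v hv), ?_, h3⟩
      intro v hv hvS
      rcases hv.eq_or_lt with h | h
      · have : v = v0 := Fin.ext h.symm
        rw [this]
        exact hD
      · exact h2 v h hvS
    · push Not at hD
      refine ⟨insert v0 S, ?_, ?_, ?_⟩
      · intro v hv
        rcases mem_insert.1 hv with rfl | hv
        · simp [hv0]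
        · exact (Nat.le_succ m).trans (h1 v hv)
      · intro v hv hvS
        rw [mem_insert, not_or] at hvS
        have hne : (v : ℕ) ≠ m := fun h => hvS.1 (Fin.ext h)
        have h5 : m + 1 ≤ (v : ℕ) := by omega
        refine le_trans (card_le_card ?_) (h2 v h5 hvS.2)
        intro w hw
        rw [mem_dc] at hw ⊢
        exact hw.mono (subset_insert _ _)
      · rw [card_insert_of_notMem hv0S]
        have hdis : Disjoint (univ.filter fun w => ∃ v ∈ S, Desc T ∅ v w) (dc T S v0) := by
          rw [Finset.disjoint_left]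
          intro w hw hw'
          simp only [mem_filter, mem_univ, true_and] at hw
          obtain ⟨v, hv, hd⟩ := hw
          rw [mem_dc] at hw'
          have h6 : v0 ≤ v := by
            rw [Fin.le_def]
            exact (Nat.le_succ m).trans (h1 v hv)
          exact hw'.between hd h6 hv
        have hsub : (univ.filter fun w => ∃ v ∈ S, Desc T ∅ v w) ∪ dc T S v0 ⊆
            univ.filter fun w => ∃ v ∈ insert v0 S, Desc T ∅ v w := by
          intro w hw
          simp only [mem_union, mem_filter, mem_univ, true_and, mem_dc] at hw ⊢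
          rcases hw with ⟨v, hv, hd⟩ | hd
          · exact ⟨v, mem_insert_of_mem hv, hd⟩
          · exact ⟨v0, mem_insert_self _ _, hd.mono (empty_subset _)⟩
        have h7 := card_le_card hsub
        rw [card_union_of_disjoint hdis] at h7
        have h8 : k * (S.card + 1) = k * S.card + k := by ring
        omega

end TD

open TD

theorem tree_dec (Δ : ℕ) (δ : ℝ) (hδ : 0 < δ) : ∃ K N₀ : ℕ, ∀ n : ℕ, N₀ ≤ n →
    ∀ T : PTree n, T.Deg Δ → ∃ U : Finset (Fin n), T.Good U K ∧ (U.card : ℝ) ≤ δ * (n : ℝ) := by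
  -- replace `Δ` by `D = Δ + 1`
  set D : ℕ := Δ + 1 with hD
  have hD1 : 1 ≤ D := by omega
  have hDr : (1 : ℝ) ≤ D := by exact_mod_cast hD1
  have hd1 : (1 - 1 / (D : ℝ) ^ 2) < 1 := by
    have : 0 < 1 / (D : ℝ) ^ 2 := by positivity
    linarith
  have hd0 : 0 ≤ (1 - 1 / (D : ℝ) ^ 2) := by
    rw [sub_nonneg, div_le_one (by positivity)]; nlinarith
  obtain ⟨r, hr⟩ := exists_pow_lt_of_lt_one (show 0 < δ / 2 by positivity) hd1
  obtain ⟨C, hC, hH⟩ := lemmaH D hD1 r
  set M : ℝ := 1 + D * C with hM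
  have hM0 : 0 < M := by positivity
  obtain ⟨k, hk⟩ := exists_nat_gt (4 * M / δ)
  have hkr : 0 < (k : ℝ) := lt_of_le_of_lt (by positivity) hk
  have hk0 : 0 < k := by exact_mod_cast hkr
  have hkM : M / k ≤ δ / 4 := by
    rw [div_lt_iff₀ hδ] at hk
    rw [div_le_iff₀ hkr]
    linarith
  obtain ⟨N₀, hN₀⟩ := exists_nat_gt (4 * M / δ)
  refine ⟨k, N₀ + 1, ?_⟩
  intro n hn T hT
  have hn0 : 0 < n := by omega
  have hnM : M ≤ δ / 4 * n := by
    have h1 : (N₀ : ℝ) ≤ n := by
      have : N₀ ≤ n := by omega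
      exact_mod_cast this
    have h2 : 4 * M / δ < n := lt_of_lt_of_le hN₀ h1
    rw [div_lt_iff₀ hδ] at h2
    linarith
  have hT' : T.Deg D := fun v => (hT v).trans (Nat.le_succ _)
  obtain ⟨S₀, -, hS1, hS2⟩ := first_cut T k 0 (Nat.zero_le n)
  set z₀ : Fin n := ⟨0, hn0⟩ with hz₀
  set S : Finset (Fin n) := insert z₀ S₀ with hS
  have h0 : ∀ i : Fin n, (i : ℕ) = 0 → i ∈ S := by
    intro i hi
    have : i = z₀ := Fin.ext hi
    rw [this, hS]
    exact mem_insert_self _ _
  have hScard : (S.card : ℝ) ≤ n / k + 1 := by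
    have h1 : k * S₀.card ≤ n := by
      refine hS2.trans ?_
      have := card_le_univ (univ.filter fun w => ∃ v ∈ S₀, Desc T ∅ v w)
      simpa using this
    have h2 : S.card ≤ S₀.card + 1 := card_insert_le _ _
    have h3 : (S₀.card : ℝ) ≤ n / k := by
      rw [le_div_iff₀ hkr]
      have : (S₀.card : ℝ) * k = ((k * S₀.card : ℕ) : ℝ) := by push_cast; ring
      rw [this]
      exact_mod_cast h1
    have h4 : (S.card : ℝ) ≤ S₀.card + 1 := by exact_mod_cast h2
    linarith
  have hsmall : ∀ v, v ∉ S → (dc T S v).card ≤ k := by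
    intro v hv
    have hv' : v ∉ S₀ := fun h => hv (mem_insert_of_mem h)
    refine le_trans (card_le_card ?_) (hS1 v (Nat.zero_le _) hv')
    intro w hw
    rw [mem_dc] at hw ⊢
    exact hw.mono (subset_insert _ _)
  choose! Uf hUf1 hUf2 hUf3 using hH n T S hT' h0
  set B : Finset (Fin n) := univ.filter fun b => b ∉ S ∧ T.par b ∈ S with hB
  have hBm : ∀ b, b ∈ B ↔ b ∉ S ∧ T.par b ∈ S := fun b => by
    rw [hB, mem_filter]
    exact and_iff_right (mem_univ b)
  have hdisj : ∀ b ∈ B, ∀ b' ∈ B, b ≠ b' → Disjoint (dc T S b) (dc T S b') := by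
    intro b hb b' hb' hne
    rw [Finset.disjoint_left]
    intro w hw hw'
    rw [mem_dc] at hw hw'
    rw [hBm] at hb hb'
    have key : ∀ a c : Fin n, T.par c ∈ S → a ≠ c → ¬ Desc T S a c := by
      intro a c hc hac h
      cases h with
      | base _ => exact hac rfl
      | step _ _ _ hd => exact hd.right hc
    rcases hw.comparable hw' with h | h
    · exact key b b' hb'.2 hne h
    · exact key b' b hb.2 hne.symm h
  have hglue : Nice T S B (B.biUnion Uf) := by
    refine Nice.glue _ _ (fun b hb => hUf1 b ((hBm b).1 hb).1) ?_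
    intro b hb b' hb' hne
    exact (hdisj b hb b' hb' hne).mono (hUf2 b ((hBm b).1 hb).1) (hUf2 b' ((hBm b').1 hb').1)
  set W : Finset (Fin n) := B.biUnion Uf with hW
  have hWS : ∀ w ∈ W, w ∉ S := by
    intro w hw
    rw [hW, mem_biUnion] at hw
    obtain ⟨b, hb, hw⟩ := hw
    have h1 := hUf2 b ((hBm b).1 hb).1 hw
    rw [mem_dc] at h1
    exact h1.right
  have htop : ∀ z, T.Top (S ∪ W) z → Tp T S W z := by
    rintro z ⟨h1, h2⟩
    rw [mem_union, not_or] at h1
    refine ⟨h1.1, h1.2, ?_⟩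
    rcases mem_union.1 h2 with h2 | h2
    · exact absurd (hglue.sub ((hBm z).2 ⟨h1.1, h2⟩)) h1.2
    · exact h2
  refine ⟨S ∪ W, ⟨?_, ?_, ?_, ?_, ?_, ?_, ?_⟩, ?_⟩
  · intro i hi
    exact mem_union_left _ (h0 i hi)
  · intro z
    by_cases hz : z ∈ S
    · have : (univ.filter fun w => w ∉ S ∪ W ∧ T.rt (S ∪ W) w = z) = ∅ := by
        rw [filter_eq_empty_iff]
        rintro w - ⟨h1, h2⟩
        have h3 := desc_rt (T := T) (U := S ∪ W) (fun i hi => mem_union_left _ (h0 i hi)) w h1
        rw [h2] at h3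
        exact h3.left (mem_union_left _ hz)
      rw [this]
      simp
    · refine le_trans (card_le_card ?_) (hsmall z hz)
      intro w hw
      simp only [mem_filter, mem_univ, true_and] at hw
      have h3 := desc_rt (T := T) (U := S ∪ W) (fun i hi => mem_union_left _ (h0 i hi)) w hw.1
      rw [hw.2] at h3
      rw [mem_dc]
      exact h3.mono subset_union_left
  · intro z hz h
    have h1 := (htop z hz).2.2
    exact hWS _ h1 (h0 _ h)
  · intro z hz
    exact mem_union_right _ (hglue.p2 z (htop z hz))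
  · intro z z' hz hz' he
    exact hglue.d1 z z' (htop z hz) (htop z' hz') he
  · intro z z' hz hz' he
    exact hglue.d2 z z' (htop z hz) (htop z' hz') he
  · intro z z' hz hz' he
    exact hglue.d3 z z' (htop z hz) (htop z' hz') he
  · -- cardinality
    have h1 : ((S ∪ W).card : ℝ) ≤ S.card + ∑ b ∈ B, ((Uf b).card : ℝ) := by
      have h2 := card_union_le S W
      have h3 := card_biUnion_le (s := B) (t := Uf)
      have h4 : (S ∪ W).card ≤ S.card + ∑ b ∈ B, (Uf b).card := by
        rw [hW] at h2 ⊢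
        omega
      exact_mod_cast h4
    have h2 : ∑ b ∈ B, ((Uf b).card : ℝ) ≤
        ∑ b ∈ B, (C + (1 - 1 / (D : ℝ) ^ 2) ^ r * ((dc T S b).card : ℝ)) :=
      sum_le_sum fun b hb => hUf3 b ((hBm b).1 hb).1
    have h3 : ∑ b ∈ B, (C + (1 - 1 / (D : ℝ) ^ 2) ^ r * ((dc T S b).card : ℝ)) =
        B.card * C + (1 - 1 / (D : ℝ) ^ 2) ^ r * ∑ b ∈ B, ((dc T S b).card : ℝ) := by
      rw [sum_add_distrib, ← mul_sum, sum_const, nsmul_eq_mul]
    have h4 : ∑ b ∈ B, ((dc T S b).card : ℝ) ≤ n := by
      have h5 : ∑ b ∈ B, (dc T S b).card = (B.biUnion (dc T S)).card := by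
        rw [card_biUnion]
        intro b hb b' hb' hne
        exact hdisj b hb b' hb' hne
      have h6 := card_le_univ (B.biUnion (dc T S))
      rw [← h5, Fintype.card_fin] at h6
      exact_mod_cast h6
    have h5 : (B.card : ℝ) ≤ S.card * D := by
      have h6 : B ⊆ S.biUnion T.ch := by
        intro b hb
        rw [hBm] at hb
        rw [mem_biUnion]
        refine ⟨T.par b, hb.2, ?_⟩
        simp only [PTree.ch, mem_filter, mem_univ, true_and, and_true]
        exact fun h => hb.1 (h0 b h)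
      have h7 := (card_le_card h6).trans (card_biUnion_le_card_mul S T.ch D fun v _ => hT' v)
      exact_mod_cast h7
    have h6 : (1 - 1 / (D : ℝ) ^ 2) ^ r * ∑ b ∈ B, ((dc T S b).card : ℝ) ≤ δ / 2 * n := by
      have h7 : 0 ≤ ∑ b ∈ B, ((dc T S b).card : ℝ) := sum_nonneg fun _ _ => Nat.cast_nonneg _
      have h8 : 0 ≤ δ / 2 := by linarith
      exact mul_le_mul hr.le h4 h7 h8
    have h7 : (B.card : ℝ) * C ≤ S.card * D * C := mul_le_mul_of_nonneg_right h5 hC
    have h8 : (S.card : ℝ) + S.card * D * C = S.card * M := by rw [hM]; ring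
    have h9 : (S.card : ℝ) * M ≤ (n / k + 1) * M := mul_le_mul_of_nonneg_right hScard hM0.le
    have h10 : ((n : ℝ) / k + 1) * M = n * (M / k) + M := by ring
    have h11 : (n : ℝ) * (M / k) ≤ n * (δ / 4) :=
      mul_le_mul_of_nonneg_left hkM (Nat.cast_nonneg n)
    calc ((S ∪ W).card : ℝ) ≤ S.card + (B.card * C + δ / 2 * n) := by linarith
      _ ≤ S.card * M + δ / 2 * n := by linarith
      _ ≤ δ * n := by linarith

end

end OT
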